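import Pool.Agent.Q69.LT.LDBox

/-!
# Lang–Trotter in families: large deviations of the number of primes with given Frobenius traces

Let `a_j, b_j`, `j = 1, ..., k`, be arbitrary polynomials in `d` variables over `ℤ`, and consider the `k` elliptic curves
`E_j(ν) : y ^ 2 = x ^ 3 + a_j(ν) x + b_j(ν)`, `ν ∈ ℤ ^ d` (by modularity each of them belongs to a newform of weight 2 with integer
coefficients, and the traces of Frobenius are the coefficients `a_p` of the forms). At every prime `p ≤ x` let a set `R p` of vectors of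
`k` traces be given; `N(ν)` is the number of the primes `p ≤ x` at which all curves are smooth and the vector of their traces is in
`R p`. For instance, for one curve and `R p = {a}` it is the number of the primes `p ≤ x` with `a_p = a`, counted by Lang and Trotter
(one may leave out the small primes, `R p` empty). Let `Λ` be the expected number in the model of independent primes, that is, the sum
over `p ≤ x` of the proportion `P_p` of the `ν` modulo `p` which are counted at `p`; for a fixed trace of one curve it is of the order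
`x ^ (1 / 2) / log x`.

It is proved that over every box of parameters with sides at least `(d + 1) x ^ (K Λ)` the number `N` has exactly the large deviations
of a Poisson variable with the mean `Λ`: the proportion of the `ν` with `N(ν) ≥ u Λ` is `exp (- Λ (u log u - u + 1 + o(1)))`
for `1 ≤ u ≤ U`, and the proportion of those with `N(ν) ≤ u Λ` is `exp (- Λ (u log u - u + 1 + o(1)))` for `0 ≤ u ≤ 1`
(for `u = 0`: no prime at all is counted for the proportion `exp (- Λ (1 + o(1)))` of the parameters). Here `o(1)` is at most `ε`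
as soon as all `P_p` are at most `η` and `Λ ≥ Λ₀`, where `K`, `η` and `Λ₀` depend on `U` and `ε` only, not on the curves,
the sets `R p`, `x` and the position of the box. So the bound `N = O(Λ)` of Lang and Trotter fails by a factor `u` only for this
exponentially small proportion of the curves, and the exponent is the right one.
-/

set_option autoImplicit false

namespace Pool.Agent.Results.MP_631487_nt.LargeDeviations

open Finset

/-- The number of the solutions `(x, y)` of `y² = x³ + A x + B` modulo `p`. -/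
def points (p : ℕ) (A B : ℤ) : ℕ :=
  ((range p ×ˢ range p).filter
    (fun xy : ℕ × ℕ => (p : ℤ) ∣ (xy.2 : ℤ) ^ 2 - ((xy.1 : ℤ) ^ 3 + A * xy.1 + B))).card

/-- The prime `p` is counted for the curves `y² = x³ + A j x + B j`: all curves are smooth modulo `p` (`p` divides no
`2 (4 (A j)³ + 27 (B j)²)`), and the vector `t` of their traces of Frobenius `t j = p + 1 - #E_j(F_p) = p - points p (A j) (B j)` is
in the set `R p`. -/
def Counted {k : ℕ} (R : ℕ → Set (Fin k → ℤ)) (A B : Fin k → ℤ) (p : ℕ) : Prop :=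
  (∀ j, ¬ (p : ℤ) ∣ 2 * (4 * A j ^ 3 + 27 * B j ^ 2)) ∧ (fun j => (p : ℤ) - points p (A j) (B j)) ∈ R p

/-- The primes up to `x`. -/
def primes (x : ℕ) : Finset ℕ := (range (x + 1)).filter Nat.Prime

open Classical in
/-- The number of the primes `p ≤ x` which are counted for the curves. -/
noncomputable def number {k : ℕ} (R : ℕ → Set (Fin k → ℤ)) (x : ℕ) (A B : Fin k → ℤ) : ℕ :=
  ((primes x).filter fun p => Counted R A B p).card

/-- The values of the polynomials `a j` at `ν`. -/
noncomputable def at_ {k d : ℕ} (a : Fin k → MvPolynomial (Fin d) ℤ) (ν : Fin d → ℤ) : Fin k → ℤ :=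
  fun j => MvPolynomial.eval ν (a j)

/-- The box of the integer vectors `ν` with `m i ≤ ν i < m i + L i`. -/
noncomputable def box {d : ℕ} (m : Fin d → ℤ) (L : Fin d → ℕ) : Finset (Fin d → ℤ) :=
  Fintype.piFinset fun i => Ico (m i) (m i + L i)

open Classical in
/-- The proportion of the `ν` of the box with the property `P`. -/
noncomputable def proportion {d : ℕ} (m : Fin d → ℤ) (L : Fin d → ℕ) (P : (Fin d → ℤ) → Prop) : ℝ :=
  (((box m L).filter P).card : ℝ) / ∏ i, (L i : ℝ)

open Classical in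
/-- The proportion of the residues `ν` modulo `q` with the property `P`. -/
noncomputable def residues (d q : ℕ) (P : (Fin d → ℤ) → Prop) : ℝ :=
  (((Fintype.piFinset fun _ : Fin d => range q).filter fun ν => P fun i => (ν i : ℤ)).card : ℝ) / (q : ℝ) ^ d

/-- The rate function `u log u - u + 1` of the Poisson law. -/
noncomputable def rate (u : ℝ) : ℝ := u * Real.log u - u + 1

/-! ### Proofs -/

lemma points_congr (p : ℕ) {A A' B B' : ℤ} (hA : (p : ℤ) ∣ A - A') (hB : (p : ℤ) ∣ B - B') :
    points p A B = points p A' B' := by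
  unfold points
  congr 1
  apply filter_congr
  intro xy _
  have h : (p : ℤ) ∣ ((xy.2 : ℤ) ^ 2 - ((xy.1 : ℤ) ^ 3 + A * xy.1 + B)) -
      ((xy.2 : ℤ) ^ 2 - ((xy.1 : ℤ) ^ 3 + A' * xy.1 + B')) := by
    have e : ((xy.2 : ℤ) ^ 2 - ((xy.1 : ℤ) ^ 3 + A * xy.1 + B)) -
      ((xy.2 : ℤ) ^ 2 - ((xy.1 : ℤ) ^ 3 + A' * xy.1 + B')) = -((A - A') * xy.1 + (B - B')) := by ring
    rw [e]
    exact (dvd_add (hA.mul_right _) hB).neg_right
  exact (dvd_iff_dvd_of_dvd_sub h)

lemma disc_congr (p : ℕ) {A A' B B' : ℤ} (hA : (p : ℤ) ∣ A - A') (hB : (p : ℤ) ∣ B - B') :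
    (p : ℤ) ∣ 2 * (4 * A ^ 3 + 27 * B ^ 2) ↔ (p : ℤ) ∣ 2 * (4 * A' ^ 3 + 27 * B' ^ 2) := by
  have h : (p : ℤ) ∣ 2 * (4 * A ^ 3 + 27 * B ^ 2) - 2 * (4 * A' ^ 3 + 27 * B' ^ 2) := by
    have e : 2 * (4 * A ^ 3 + 27 * B ^ 2) - 2 * (4 * A' ^ 3 + 27 * B' ^ 2) =
      (A - A') * (8 * (A ^ 2 + A * A' + A' ^ 2)) + (B - B') * (54 * (B + B')) := by ring
    rw [e]
    exact dvd_add (hA.mul_right _) (hB.mul_right _)
  exact dvd_iff_dvd_of_dvd_sub h

lemma counted_congr {k : ℕ} (R : ℕ → Set (Fin k → ℤ)) (p : ℕ) {A A' B B' : Fin k → ℤ}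
    (hA : ∀ j, (p : ℤ) ∣ A j - A' j) (hB : ∀ j, (p : ℤ) ∣ B j - B' j) : Counted R A B p ↔ Counted R A' B' p := by
  unfold Counted
  have h1 : (fun j => (p : ℤ) - points p (A j) (B j)) = fun j => (p : ℤ) - points p (A' j) (B' j) := by
    funext j
    rw [points_congr p (hA j) (hB j)]
  rw [h1]
  exact and_congr (forall_congr' fun j => not_congr (disc_congr p (hA j) (hB j))) Iff.rfl

lemma eval_congr {d : ℕ} (p : ℕ) (a : MvPolynomial (Fin d) ℤ) {ν ν' : Fin d → ℤ} (h : ∀ i, (p : ℤ) ∣ ν i - ν' i) :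
    (p : ℤ) ∣ MvPolynomial.eval ν a - MvPolynomial.eval ν' a := by
  induction a using MvPolynomial.induction_on with
  | C c => simp
  | add f g hf hg =>
    rw [map_add, map_add, add_sub_add_comm]
    exact dvd_add hf hg
  | mul_X f i hf =>
    rw [map_mul, map_mul, MvPolynomial.eval_X, MvPolynomial.eval_X]
    have e : MvPolynomial.eval ν f * ν i - MvPolynomial.eval ν' f * ν' i =
      (MvPolynomial.eval ν f - MvPolynomial.eval ν' f) * ν i + (ν i - ν' i) * MvPolynomial.eval ν' f := by ring
    rw [e]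
    exact dvd_add (hf.mul_right _) ((h i).mul_right _)

lemma residues_eq (d q : ℕ) (P : (Fin d → ℤ) → Prop) : Q282LT.rprop d q P = residues d q P := by
  classical
  unfold Q282LT.rprop Q282LT.avg residues
  rw [card_filter]
  push_cast
  congr 1

lemma proportion_eq {d : ℕ} (m : Fin d → ℤ) (L : Fin d → ℕ) (P : (Fin d → ℤ) → Prop) : Q282LT.zprop m L P = proportion m L P := rfl

/-- Let `U ≥ 1` and `ε > 0`. There are `K > 0`, `Λ₀ ≥ 1` and `η > 0` with the following property. Let `a_j, b_j`, `j = 1, ..., k`,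
be polynomials in `d ≥ 0` variables over `ℤ`, let `R p` be a set of vectors of `k` integers for every prime `p`, let `x ≥ 2`,
and let `P_p` be the proportion of the `ν` modulo `p` such that `p` is counted for the curves `y² = x³ + a_j(ν) x + b_j(ν)`. Suppose
that `P_p ≤ η` for all primes `p ≤ x`, and that the sum `Λ` of these `P_p` is at least `Λ₀`. Let a box of integer vectors be given
all sides of which are at least `(d + 1) x ^ (K Λ)`. Then for `1 ≤ u ≤ U` the proportion of the `ν` of the box for which at least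
`u Λ` primes `p ≤ x` are counted lies between `exp (-Λ (rate u + ε))` and `exp (-Λ (rate u - ε))`, and the same holds for
`0 ≤ u ≤ 1` for the proportion of the `ν` of the box for which at most `u Λ` primes `p ≤ x` are counted. -/
theorem result (U ε : ℝ) (hU : 1 ≤ U) (hε : 0 < ε) : ∃ K Λ₀ η : ℝ, 0 < K ∧ 1 ≤ Λ₀ ∧ 0 < η ∧
    ∀ (k d : ℕ) (a b : Fin k → MvPolynomial (Fin d) ℤ) (R : ℕ → Set (Fin k → ℤ)) (x : ℕ), 2 ≤ x →
      (∀ p ∈ primes x, residues d p (fun ν => Counted R (at_ a ν) (at_ b ν) p) ≤ η) →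
      ∀ Λ : ℝ, Λ = ∑ p ∈ primes x, residues d p (fun ν => Counted R (at_ a ν) (at_ b ν) p) → Λ₀ ≤ Λ →
      ∀ (m : Fin d → ℤ) (L : Fin d → ℕ), (∀ i, (d + 1) * (x : ℝ) ^ (K * Λ) ≤ L i) →
      (∀ u : ℝ, 1 ≤ u → u ≤ U →
        Real.exp (-(Λ * (rate u + ε))) ≤ proportion m L (fun ν => u * Λ ≤ number R x (at_ a ν) (at_ b ν)) ∧
        proportion m L (fun ν => u * Λ ≤ number R x (at_ a ν) (at_ b ν)) ≤ Real.exp (-(Λ * (rate u - ε)))) ∧
      (∀ u : ℝ, 0 ≤ u → u ≤ 1 →
        Real.exp (-(Λ * (rate u + ε))) ≤ proportion m L (fun ν => (number R x (at_ a ν) (at_ b ν) : ℝ) ≤ u * Λ) ∧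
        proportion m L (fun ν => (number R x (at_ a ν) (at_ b ν) : ℝ) ≤ u * Λ) ≤ Real.exp (-(Λ * (rate u - ε)))) := by
  classical
  obtain ⟨K, Λ₀, η, hK, hΛ₀, hη, h⟩ := Q69LT.ld_z U ε hU hε
  refine ⟨K, Λ₀, η, hK, hΛ₀, hη, ?_⟩
  intro k d a b R x hx hP Λ hΛ hΛΛ m L hL
  have hI : ∀ p ∈ primes x, p.Prime ∧ p ≤ x := by
    intro p hp
    unfold primes at hp
    rw [mem_filter, mem_range] at hp
    exact ⟨hp.2, by omega⟩
  exact h d (primes x) (fun p => p) (fun p ν => Counted R (at_ a ν) (at_ b ν) p)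
    (fun p hp => (hI p hp).1.one_lt.le)
    (fun p hp p' hp' hne => (Nat.coprime_primes (hI p hp).1 (hI p' hp').1).2 hne)
    (fun p _ ν ν' hνν => counted_congr R p (fun j => eval_congr p (a j) hνν) fun j => eval_congr p (b j) hνν)
    (fun p hp => (residues_eq d p _).trans_le (hP p hp)) Λ (by
      rw [hΛ]
      exact sum_congr rfl fun p _ => (residues_eq d p _).symm) hΛΛ
    x hx (fun p hp => (hI p hp).2)
    (by
      calc (primes x).card ≤ (Icc 1 x).card := by
            refine card_le_card fun p hp => ?_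
            rw [mem_Icc]
            exact ⟨(hI p hp).1.one_lt.le, (hI p hp).2⟩
        _ = x := by rw [Nat.card_Icc, Nat.add_sub_cancel])
    m L hL

end Pool.Agent.Results.MP_631487_nt.LargeDeviations
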