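import Pool.Agent.HT177.Split.LT

/-!
# The limit laws of the normalized number of primes in random sets near the Lang–Trotter model
-/

set_option autoImplicit false

namespace Pool.Agent.Results.MP_631487_nt.LimitLaws

open MeasureTheory Filter Pool.Agent.Q120.ET Pool.Agent.HT177.Split.LT
open scoped Topology

/-- A probability measure `ν` is the law of `lim N(x) / E(x)` for some random set of class `δ` for which the limit exists almost surely iff it lives
on `[0, ∞)` and `∫ (u log u - u + 1) dν ≤ δ`. -/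
theorem result (C : ℝ) (hC : 0 < C) (δ : ℝ) (hδ : 0 ≤ δ) (ν : Measure ℝ) (hν : IsProbabilityMeasure ν) :
    (∃ (Ω : Type) (_ : MeasurableSpace Ω) (μ : Measure Ω) (_ : IsProbabilityMeasure μ) (A : Ω → Set ℕ) (L : Ω → ℝ), Cls C δ μ A ∧
      Measurable L ∧ μ.map L = ν ∧ ∀ᵐ ω ∂μ, Tendsto (fun x : ℕ => (N (A ω) x : ℝ) / E C x) atTop (𝓝 (L ω))) ↔
    ν (Set.Iio 0) = 0 ∧ ∫⁻ u, ENNReal.ofReal (u * Real.log u - u + 1) ∂ν ≤ ENNReal.ofReal δ :=
  laws C hC δ hδ ν hν

end Pool.Agent.Results.MP_631487_nt.LimitLaws
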