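import Pool.Agent.HT177.Split.LT

/-!
# The Lang–Trotter bound for random sets of primes of given information
-/

set_option autoImplicit false

namespace Pool.Agent.Results.MP_631487_nt.OrderAtGivenInformation

open MeasureTheory Filter Pool.Agent.Q120.ET Pool.Agent.HT177.Split.LT
open scoped Topology

/-- Let `d ≥ 0` be nondecreasing. If `∑_p d p (log p) ^ 2 / p ^ (3 / 2) < ∞`, then all random sets `A` of primes with `D(x) ≤ d x` for large `x`
almost surely have `N(x) ~ C √x / log x`; if the series diverges, then for some such set almost surely `N(x)` is not `O(√x / log x)`. -/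
theorem result (C : ℝ) (hC : 0 < C) (d : ℕ → ℝ) (hm : Monotone d) (hd : ∀ n, 0 ≤ d n) :
    (Summable (fun p : ℕ => if p.Prime then d p * Real.log p ^ 2 / (p * √p) else 0) →
      ∀ (Ω : Type) [MeasurableSpace Ω] (μ : Measure Ω) [IsProbabilityMeasure μ] (A : Ω → Set ℕ), IsRandomSet A →
        (∀ᶠ x : ℕ in atTop, D C μ A x ≤ d x) → ∀ᵐ ω ∂μ, Tendsto (fun x : ℕ => (N (A ω) x : ℝ) / E C x) atTop (𝓝 1)) ∧
    (¬ Summable (fun p : ℕ => if p.Prime then d p * Real.log p ^ 2 / (p * √p) else 0) →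
      ∃ (Ω : Type) (_ : MeasurableSpace Ω) (μ : Measure Ω) (_ : IsProbabilityMeasure μ) (A : Ω → Set ℕ), IsRandomSet A ∧
        (∀ᶠ x : ℕ in atTop, D C μ A x ≤ d x) ∧
        ∀ᵐ ω ∂μ, ∀ B : ℝ, ∃ᶠ x : ℕ in atTop, B * (√x / Real.log x) < N (A ω) x) :=
  order C hC d hm hd

end Pool.Agent.Results.MP_631487_nt.OrderAtGivenInformation
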