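import Pool.Agent.HT177.Split.LT

/-!
# The probability that a random set near the Lang–Trotter model has only finitely many primes
-/

set_option autoImplicit false

namespace Pool.Agent.Results.MP_631487_nt.ProbabilityOfFinitelyMany

open MeasureTheory Filter Pool.Agent.Q120.ET Pool.Agent.HT177.Split.LT
open scoped Topology

/-- The largest probability that only finitely many primes are in a random set of class `δ` is `min 1 δ`. -/
theorem result (C : ℝ) (hC : 0 < C) (δ : ℝ) (hδ : 0 ≤ δ) :
    (∀ (Ω : Type) [MeasurableSpace Ω] (μ : Measure Ω) [IsProbabilityMeasure μ] (A : Ω → Set ℕ), Cls C δ μ A →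
      μ.real {ω | (A ω ∩ {n | n.Prime}).Finite} ≤ δ) ∧
    ∃ (Ω : Type) (_ : MeasurableSpace Ω) (μ : Measure Ω) (_ : IsProbabilityMeasure μ) (A : Ω → Set ℕ), Cls C δ μ A ∧
      μ.real {ω | (A ω ∩ {n | n.Prime}).Finite} = min 1 δ :=
  finite_prob C hC δ hδ

end Pool.Agent.Results.MP_631487_nt.ProbabilityOfFinitelyMany
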